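import Pool.Agent.Q140.KM.Trans

/-!
# Translation KM-arcs built from inequivalent clubs are inequivalent
-/

set_option autoImplicit false
set_option linter.unusedSectionVars false

open Module Q140.KM

namespace Pool.Agent.Results.MP_5fce70_co.ArcsDetermineClubs

section

variable (K : Type) [Field K] [Algebra (ZMod 2) K]

/-- The line `ℓ : X₂ = 0` of `PG(2, K)`, as a subspace of `K³`. -/
def ell : Submodule K (Fin 3 → K) := LinearMap.ker (LinearMap.proj 2)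

end

section

variable {K : Type} [Field K] [Algebra (ZMod 2) K]

/-- The set of points of `PG(2, K)` on a subspace `H` of `K³`. -/
def points (H : Submodule K (Fin 3 → K)) : Set (Submodule K (Fin 3 → K)) :=
  {P | ∃ x ∈ H, x ≠ 0 ∧ P = K ∙ x}

/-- The linear set `L_U`. -/
def linearSet (U : Submodule (ZMod 2) (Fin 3 → K)) : Set (Submodule K (Fin 3 → K)) :=
  {P | ∃ u ∈ U, u ≠ 0 ∧ P = K ∙ u}

/-- The weight of the point `P` in `L_U`. -/
noncomputable def weight (U : Submodule (ZMod 2) (Fin 3 → K)) (P : Submodule K (Fin 3 → K)) : ℕ :=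
  finrank (ZMod 2) (U ⊓ P.restrictScalars (ZMod 2) : Submodule (ZMod 2) (Fin 3 → K))

/-- `U ≤ {X₂ = 0}` is an `𝔽₂`-subspace of dimension `n` which defines an `i`-club of the line `ℓ`:
exactly one point of `L_U` has weight `i` and all other points of `L_U` have weight `1`. -/
def IsClub (n i : ℕ) (U : Submodule (ZMod 2) (Fin 3 → K)) : Prop :=
  U ≤ (ell K).restrictScalars (ZMod 2) ∧ finrank (ZMod 2) U = n ∧
    (∃! P, P ∈ linearSet U ∧ weight U P = i) ∧ ∀ P ∈ linearSet U, weight U P ≠ i → weight U P = 1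

/-- The point set `𝒜(U, v) = (L_{U'} \ ℓ) ∪ (ℓ \ L_U)` with `U' = U + ⟨v⟩`. -/
def arc (U : Submodule (ZMod 2) (Fin 3 → K)) (v : Fin 3 → K) : Set (Submodule K (Fin 3 → K)) :=
  (linearSet (U ⊔ (ZMod 2) ∙ v) \ points (ell K)) ∪ (points (ell K) \ linearSet U)

/-- `U₁` and `U₂` are equivalent under the group of bijective semilinear maps of `{X₂ = 0}`. -/
def GammaEquiv (U₁ U₂ : Submodule (ZMod 2) (Fin 3 → K)) : Prop :=
  ∃ θ : ell K ≃+ ell K, IsSemilinear K θ ∧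
    ∀ x : ell K, (x : Fin 3 → K) ∈ U₁ ↔ (θ x : Fin 3 → K) ∈ U₂

/-- The point sets `S` and `T` of `PG(2, K)` are equivalent: a collineation, induced by a bijective
semilinear map of `K³`, maps `S` onto `T`. -/
def PointSetEquiv (S T : Set (Submodule K (Fin 3 → K))) : Prop :=
  ∃ φ : (Fin 3 → K) ≃+ (Fin 3 → K), IsSemilinear K φ ∧
    ∀ x : Fin 3 → K, x ≠ 0 → ((K ∙ x) ∈ S ↔ (K ∙ φ x) ∈ T)

lemma mem_ell (x : Fin 3 → K) : x ∈ ell K ↔ x 2 = 0 := by
  unfold ell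
  rw [LinearMap.mem_ker]
  rfl

lemma span_eq_iff (x y : Fin 3 → K) (hx : x ≠ 0) : (K ∙ x) = (K ∙ y) ↔ ∃ c : K, c ≠ 0 ∧ x = c • y := by
  rw [Submodule.span_singleton_eq_span_singleton]
  constructor
  · rintro ⟨z, hz⟩
    refine ⟨z⁻¹, ?_, ?_⟩
    · exact inv_ne_zero z.ne_zero
    · rw [← hz, Units.smul_def, smul_smul, inv_mul_cancel₀ z.ne_zero, one_smul]
  · rintro ⟨c, hc, rfl⟩
    refine ⟨(Units.mk0 c hc)⁻¹, ?_⟩
    rw [Units.smul_def, smul_smul]
    simp [hc]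

lemma mem_linearSet (U : Submodule (ZMod 2) (Fin 3 → K)) (x : Fin 3 → K) (hx : x ≠ 0) :
    (K ∙ x) ∈ linearSet U ↔ ∃ u ∈ U, ∃ c : K, x = c • u := by
  constructor
  · rintro ⟨u, hu, -, he⟩
    obtain ⟨c, -, hc⟩ := (span_eq_iff x u hx).1 he
    exact ⟨u, hu, c, hc⟩
  · rintro ⟨u, hu, c, hc⟩
    have hc0 : c ≠ 0 := by
      rintro rfl
      rw [zero_smul] at hc
      exact hx hc
    have hu0 : u ≠ 0 := by
      rintro rfl
      rw [smul_zero] at hc
      exact hx hc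
    exact ⟨u, hu, hu0, (span_eq_iff x u hx).2 ⟨c, hc0, hc⟩⟩

lemma mem_points (H : Submodule K (Fin 3 → K)) (x : Fin 3 → K) (hx : x ≠ 0) :
    (K ∙ x) ∈ points H ↔ x ∈ H := by
  constructor
  · rintro ⟨y, hy, -, he⟩
    obtain ⟨c, -, rfl⟩ := (span_eq_iff x y hx).1 he
    exact H.smul_mem c hy
  · intro h
    exact ⟨x, h, hx, rfl⟩

/-- the functional of the arc -/
noncomputable def func (v : Fin 3 → K) : (Fin 3 → K) →ₗ[K] K :=
  (v 2)⁻¹ • LinearMap.proj 2

lemma func_apply (v x : Fin 3 → K) : func v x = (v 2)⁻¹ * x 2 := rfl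

lemma func_eq_zero (v : Fin 3 → K) (hv : v 2 ≠ 0) (x : Fin 3 → K) : func v x = 0 ↔ x ∈ ell K := by
  rw [func_apply, mem_ell, mul_eq_zero]
  simp [hv]

lemma arc_data (U : Submodule (ZMod 2) (Fin 3 → K))
    (hU : U ≤ (ell K).restrictScalars (ZMod 2)) (v : Fin 3 → K) (hv : v 2 ≠ 0) :
    Arc (func v) U.toAddSubgroup v :=
  ⟨fun u hu => (func_eq_zero v hv u).2 (hU hu), by rw [func_apply, inv_mul_cancel₀ hv]⟩

lemma mem_arc (U : Submodule (ZMod 2) (Fin 3 → K)) (hU : U ≤ (ell K).restrictScalars (ZMod 2))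
    (v : Fin 3 → K) (hv : v 2 ≠ 0) (x : Fin 3 → K) (hx : x ≠ 0) :
    (K ∙ x) ∈ arc U v ↔ InA (func v) U.toAddSubgroup v x := by
  unfold arc
  rw [Set.mem_union, Set.mem_sdiff, Set.mem_sdiff, mem_points _ x hx, mem_linearSet _ x hx,
    mem_linearSet _ x hx]
  refine or_congr ?_ ?_
  · constructor
    · rintro ⟨⟨w, hw, c, rfl⟩, hxl⟩
      obtain ⟨u, hu, y, hy, rfl⟩ := Submodule.mem_sup.1 hw
      obtain ⟨ε, rfl⟩ := Submodule.mem_span_singleton.1 hy
      have hc0 : c ≠ 0 := by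
        rintro rfl
        rw [zero_smul] at hx
        exact hx rfl
      have hε : ∀ ε : ZMod 2, ε = 0 ∨ ε = 1 := by decide
      rcases hε ε with rfl | rfl
      · exfalso
        apply hxl
        rw [zero_smul, add_zero]
        exact (ell K).smul_mem c (hU hu)
      · exact ⟨u, hu, c, hc0, by rw [one_smul]⟩
    · rintro ⟨u, hu, c, hc, rfl⟩
      refine ⟨⟨u + v, Submodule.mem_sup.2 ⟨u, hu, v, Submodule.mem_span_singleton_self v, rfl⟩, c,
        rfl⟩, ?_⟩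
      have h1 : u 2 = 0 := (mem_ell u).1 (hU hu)
      rw [mem_ell]
      change ¬ (c * (u 2 + v 2) = 0)
      rw [h1, zero_add]
      exact mul_ne_zero hc hv
  · rw [func_eq_zero v hv]
    constructor
    · rintro ⟨h1, h2⟩
      exact ⟨hx, h1, fun u hu c hc => h2 ⟨u, hu, c, hc⟩⟩
    · rintro ⟨-, h1, h2⟩
      exact ⟨h1, fun ⟨u, hu, c, hc⟩ => h2 u hu c hc⟩

lemma mem_inf (U : Submodule (ZMod 2) (Fin 3 → K)) (p x : Fin 3 → K) :
    x ∈ (U ⊓ (K ∙ p).restrictScalars (ZMod 2) : Submodule (ZMod 2) (Fin 3 → K)) ↔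
      x ∈ U ∧ ∃ c : K, x = c • p := by
  rw [Submodule.mem_inf, Submodule.restrictScalars_mem, Submodule.mem_span_singleton]
  refine and_congr Iff.rfl ⟨?_, ?_⟩
  · rintro ⟨c, rfl⟩; exact ⟨c, rfl⟩
  · rintro ⟨c, rfl⟩; exact ⟨c, rfl⟩

lemma card_weight [Finite K] (U : Submodule (ZMod 2) (Fin 3 → K)) (p : Fin 3 → K) :
    {x : Fin 3 → K | x ∈ U ∧ ∃ c : K, x = c • p}.ncard = 2 ^ weight U (K ∙ p) := by
  have h1 : {x : Fin 3 → K | x ∈ U ∧ ∃ c : K, x = c • p} =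
      ((U ⊓ (K ∙ p).restrictScalars (ZMod 2) : Submodule (ZMod 2) (Fin 3 → K)) : Set _) := by
    ext x
    exact (mem_inf U p x).symm
  rw [h1, weight]
  have h2 := natCard_eq_pow_finrank (K := ZMod 2)
    (V := (U ⊓ (K ∙ p).restrictScalars (ZMod 2) : Submodule (ZMod 2) (Fin 3 → K)))
  rw [Nat.card_zmod] at h2
  exact h2

lemma card_sub [Finite K] (U : Submodule (ZMod 2) (Fin 3 → K)) :
    Nat.card U = 2 ^ finrank (ZMod 2) U := by
  have h2 := natCard_eq_pow_finrank (K := ZMod 2) (V := U)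
  rwa [Nat.card_zmod] at h2

/-- in a club which is not a single point the heavy point has weight at least `2` -/
lemma club_data [Finite K] {n i : ℕ} {U : Submodule (ZMod 2) (Fin 3 → K)} (h : IsClub n i U)
    (hi : i < n) :
    2 ≤ i ∧ ∃ p, Club K U.toAddSubgroup p (2 ^ n) (2 ^ i) := by
  obtain ⟨hU, hfr, ⟨P, ⟨hP, hPw⟩, huniq⟩, hlight⟩ := h
  obtain ⟨p, hp, hp0, rfl⟩ := hP
  have hcardU : Nat.card U = 2 ^ n := by rw [card_sub, hfr]
  have hheavy : {x : Fin 3 → K | x ∈ U ∧ ∃ c : K, x = c • p}.ncard = 2 ^ i := by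
    rw [card_weight, hPw]
  -- every weight is positive
  have hpos : ∀ u ∈ U, u ≠ 0 → 1 ≤ weight U (K ∙ u) := by
    intro u hu hu0
    by_contra hcon
    have h0 : weight U (K ∙ u) = 0 := by omega
    have h1 := card_weight U u
    rw [h0, pow_zero, Set.ncard_eq_one] at h1
    obtain ⟨y, hy⟩ := h1
    have h2 : u ∈ ({y} : Set (Fin 3 → K)) := by rw [← hy]; exact ⟨hu, 1, by rw [one_smul]⟩
    have h3 : (0 : Fin 3 → K) ∈ ({y} : Set (Fin 3 → K)) := by
      rw [← hy]; exact ⟨U.zero_mem, 0, by rw [zero_smul]⟩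
    rw [Set.mem_singleton_iff] at h2 h3
    exact hu0 (by rw [h2, h3])
  have hi1 : 1 ≤ i := by rw [← hPw]; exact hpos p hp hp0
  have hi2 : 2 ≤ i := by
    by_contra hcon
    have hi' : i = 1 := by omega
    subst hi'
    -- all points of `L_U` have weight one, so there is only one
    have h1 : {x : Fin 3 → K | x ∈ U ∧ ∃ c : K, x = c • p} = (U : Set (Fin 3 → K)) := by
      ext u
      refine ⟨fun hx => hx.1, fun hu => ⟨hu, ?_⟩⟩
      by_cases hu0 : u = 0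
      · exact ⟨0, by rw [hu0, zero_smul]⟩
      have h2 : (K ∙ u) ∈ linearSet U := ⟨u, hu, hu0, rfl⟩
      have h3 : weight U (K ∙ u) = 1 := by
        by_contra h4
        exact h4 (hlight _ h2 h4)
      have h5 := huniq _ ⟨h2, h3⟩
      obtain ⟨c, -, hc⟩ := (span_eq_iff u p hu0).1 h5
      exact ⟨c, hc⟩
    rw [h1] at hheavy
    have h2 : (U : Set (Fin 3 → K)).ncard = 2 ^ n := hcardU
    rw [h2] at hheavy
    have := Nat.pow_right_injective le_rfl hheavy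
    omega
  refine ⟨hi2, p, hp, hp0, hcardU, hheavy, ?_⟩
  rintro a ha b hb ha0 hb0 hab ⟨c, hc⟩
  have h2 : (K ∙ a) ∈ linearSet U := ⟨a, ha, ha0, rfl⟩
  have h3 : weight U (K ∙ a) ≠ 1 := by
    intro h4
    have h5 := card_weight U a
    rw [h4, pow_one] at h5
    have h6 : ({0, a, b} : Set (Fin 3 → K)) ⊆ {x : Fin 3 → K | x ∈ U ∧ ∃ c : K, x = c • a} := by
      rintro x (rfl | rfl | rfl)
      · exact ⟨U.zero_mem, 0, by rw [zero_smul]⟩
      · exact ⟨ha, 1, by rw [one_smul]⟩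
      · exact ⟨hb, c, hc⟩
    have h7 := Set.ncard_le_ncard h6 (Set.toFinite _)
    have h8 : ({0, a, b} : Set (Fin 3 → K)).ncard = 3 := by
      rw [Set.ncard_eq_three]
      exact ⟨0, a, b, ha0.symm, hb0.symm, hab, rfl⟩
    omega
  have h4 : weight U (K ∙ a) = i := by
    by_contra h5
    exact h3 (hlight _ h2 h5)
  have h5 := huniq _ ⟨h2, h4⟩
  obtain ⟨d, -, hd⟩ := (span_eq_iff a p ha0).1 h5
  exact ⟨d, hd⟩

/-- admissible vectors are not on the line -/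
lemma admissible [Finite K] {n i : ℕ} {U : Submodule (ZMod 2) (Fin 3 → K)} (h : IsClub n i U)
    (hi : i < n) (v : Fin 3 → K)
    (hv : v ∉ Submodule.span K (U : Set (Fin 3 → K))) : v 2 ≠ 0 := by
  intro hv0
  apply hv
  obtain ⟨-, p, hc⟩ := club_data h hi
  have hle : Submodule.span K (U : Set (Fin 3 → K)) ≤ ell K :=
    Submodule.span_le.2 fun u hu => h.1 hu
  -- some `u ∈ U` is not proportional to `p`
  obtain ⟨u, hu, hup⟩ : ∃ u ∈ U, ∀ c : K, u ≠ c • p := by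
    by_contra hcon
    push Not at hcon
    have h1 : {x : Fin 3 → K | x ∈ U.toAddSubgroup ∧ ∃ c : K, x = c • p} =
        (U : Set (Fin 3 → K)) := by
      ext u
      exact ⟨fun hx => hx.1, fun hx => ⟨hx, hcon u hx⟩⟩
    have h2 := hc.heavy
    rw [h1] at h2
    have h3 : (U : Set (Fin 3 → K)).ncard = 2 ^ n := hc.card
    rw [h3] at h2
    have := Nat.pow_right_injective le_rfl h2
    omega
  have hfr2 : 2 ≤ finrank K (Submodule.span K (U : Set (Fin 3 → K))) := by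
    have h1 : LinearIndependent K ![p, u] := by
      rw [LinearIndependent.pair_iff' hc.ne]
      exact fun c hcu => hup c hcu.symm
    have h2 : Submodule.span K (Set.range ![p, u]) ≤ Submodule.span K (U : Set (Fin 3 → K)) := by
      apply Submodule.span_mono
      rintro x ⟨j, rfl⟩
      fin_cases j
      · exact hc.mem
      · exact hu
    have h3 := finrank_span_eq_card h1
    rw [Fintype.card_fin] at h3
    have h4 := Submodule.finrank_mono h2
    rw [h3] at h4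
    exact h4
  have hell : finrank K (ell K) = 2 := by
    have h1 : Arc (func ![0, 0, 1] : (Fin 3 → K) →ₗ[K] K) ⊥ ![0, 0, 1] :=
      ⟨fun u hu => by rw [AddSubgroup.mem_bot.1 hu, map_zero], by simp [func_apply]⟩
    have h2 := finrank_ker h1.hv (by simp)
    have h3 : LinearMap.ker (func ![0, 0, 1] : (Fin 3 → K) →ₗ[K] K) = ell K := by
      ext x
      rw [LinearMap.mem_ker, func_eq_zero _ (by simp)]
    rwa [h3] at h2
  rw [Submodule.eq_of_le_of_finrank_le hle (by rw [hell]; exact hfr2), mem_ell]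
  exact hv0

/-- the case of a single point -/
lemma single [Finite K] {n : ℕ} {U₁ U₂ : Submodule (ZMod 2) (Fin 3 → K)} (h₁ : IsClub n n U₁)
    (h₂ : IsClub n n U₂) (hn : Nat.card K = 2 ^ n) : GammaEquiv U₁ U₂ := by
  have key : ∀ U : Submodule (ZMod 2) (Fin 3 → K), IsClub n n U →
      ∃ p : ell K, p ≠ 0 ∧ ∀ x : Fin 3 → K, x ∈ U ↔ ∃ c : K, x = c • (p : Fin 3 → K) := by
    rintro U ⟨hU, hfr, ⟨P, ⟨hP, hPw⟩, -⟩, -⟩
    obtain ⟨p, hp, hp0, rfl⟩ := hP
    refine ⟨⟨p, hU hp⟩, fun h0 => hp0 (congrArg Subtype.val h0), ?_⟩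
    have hcardU : (U : Set (Fin 3 → K)).ncard = 2 ^ n := by
      change Nat.card U = _
      rw [card_sub, hfr]
    have hheavy : {x : Fin 3 → K | x ∈ U ∧ ∃ c : K, x = c • p}.ncard = 2 ^ n := by
      rw [card_weight, hPw]
    have h1 : {x : Fin 3 → K | x ∈ U ∧ ∃ c : K, x = c • p} = (U : Set (Fin 3 → K)) :=
      Set.eq_of_subset_of_ncard_le (fun x hx => hx.1) (by rw [hheavy, hcardU]) (Set.toFinite _)
    have h2 : Set.InjOn (fun c : K => c • p) Set.univ := fun a _ b _ hab =>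
      smul_left_injective K hp0 hab
    have h3 : ((fun c : K => c • p) '' Set.univ).ncard = 2 ^ n := by
      rw [h2.ncard_image, Set.ncard_univ, hn]
    have h4 : (U : Set (Fin 3 → K)) ⊆ (fun c : K => c • p) '' Set.univ := by
      rw [← h1]
      rintro x ⟨-, c, rfl⟩
      exact ⟨c, trivial, rfl⟩
    have h5 := Set.eq_of_subset_of_ncard_le h4 (by rw [h3, hcardU]) (Set.toFinite _)
    intro x
    constructor
    · intro hx
      have : x ∈ (fun c : K => c • p) '' Set.univ := by rw [← h5]; exact hx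
      obtain ⟨c, -, rfl⟩ := this
      exact ⟨c, rfl⟩
    · rintro ⟨c, rfl⟩
      have : c • p ∈ (U : Set (Fin 3 → K)) := by rw [h5]; exact ⟨c, trivial, rfl⟩
      exact this
  obtain ⟨p₁, hp₁, e₁⟩ := key U₁ h₁
  obtain ⟨p₂, hp₂, e₂⟩ := key U₂ h₂
  obtain ⟨e, he⟩ := exists_equiv (K := K) p₁ p₂ hp₁ hp₂
  refine ⟨e.toAddEquiv, ⟨RingEquiv.refl K, fun a x => e.map_smul a x⟩, fun x => ?_⟩
  rw [e₁, e₂]
  constructor
  · rintro ⟨c, hc⟩
    refine ⟨c, ?_⟩
    have h1 : x = c • p₁ := Subtype.ext hc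
    change ((e x : ell K) : Fin 3 → K) = _
    rw [h1, map_smul, he]
    rfl
  · rintro ⟨c, hc⟩
    refine ⟨c, ?_⟩
    have h1 : e x = c • p₂ := Subtype.ext hc
    rw [← he, ← map_smul] at h1
    rw [e.injective h1]
    rfl

end

/-- **The KM-arcs `𝒜(U₁, v₁)` and `𝒜(U₂, v₂)` built from inequivalent `i`-clubs are
inequivalent**, for all `n`, `i` and all admissible `v₁`, `v₂`. -/
theorem result (n i : ℕ) (K : Type) [Field K] [Finite K] [Algebra (ZMod 2) K]
    (hK : Nat.card K = 2 ^ n) (U₁ U₂ : Submodule (ZMod 2) (Fin 3 → K)) (h₁ : IsClub n i U₁)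
    (h₂ : IsClub n i U₂) (hne : ¬ GammaEquiv U₁ U₂) (v₁ v₂ : Fin 3 → K)
    (hv₁ : v₁ ∉ Submodule.span K (U₁ : Set (Fin 3 → K)))
    (hv₂ : v₂ ∉ Submodule.span K (U₂ : Set (Fin 3 → K))) :
    ¬ PointSetEquiv (arc U₁ v₁) (arc U₂ v₂) := by
  rintro ⟨φ, hφ, hA⟩
  apply hne
  have hin : i ≤ n := by
    obtain ⟨-, hfr, ⟨P, ⟨-, hPw⟩, -⟩, -⟩ := h₁
    rw [← hPw, ← hfr]
    exact Submodule.finrank_mono inf_le_left
  rcases hin.eq_or_lt with rfl | hi
  · exact single h₁ h₂ hK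
  obtain ⟨hi2, p₁, c₁⟩ := club_data h₁ hi
  obtain ⟨-, p₂, c₂⟩ := club_data h₂ hi
  have w₁ := admissible h₁ hi v₁ hv₁
  have w₂ := admissible h₂ hi v₂ hv₂
  have a₁ := arc_data U₁ h₁.1 v₁ w₁
  have a₂ := arc_data U₂ h₂.1 v₂ w₂
  have zero : ∀ (U : Submodule (ZMod 2) (Fin 3 → K)) (v : Fin 3 → K),
      Arc (func v) U.toAddSubgroup v → ¬ InA (func v) U.toAddSubgroup v 0 := by
    rintro U v ha (⟨u, hu, c, hc, he⟩ | ⟨h0, -⟩)
    · have h1 : func v (0 : Fin 3 → K) = c := by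
        rw [he, map_smul, map_add, ha.hU u hu, ha.hv, zero_add, smul_eq_mul, mul_one]
      rw [map_zero] at h1
      exact hc h1.symm
    · exact h0 rfl
  have hA' : ∀ x, InA (func v₁) U₁.toAddSubgroup v₁ x ↔
      InA (func v₂) U₂.toAddSubgroup v₂ (φ x) := by
    intro x
    by_cases hx : x = 0
    · subst hx
      rw [map_zero]
      exact iff_of_false (zero U₁ v₁ a₁) (zero U₂ v₂ a₂)
    · rw [← mem_arc U₁ h₁.1 v₁ w₁ x hx, hA x hx, mem_arc U₂ h₂.1 v₂ w₂ (φ x) (by simpa using hx)]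
  have hpow : 3 ≤ 2 ^ i := by
    calc 3 ≤ 2 ^ 2 := by norm_num
      _ ≤ 2 ^ i := Nat.pow_le_pow_right (by norm_num) hi2
  obtain ⟨ψ, ⟨σ, hσ⟩, hH, κ, hκ, hU⟩ := core (by simp) hK a₁ a₂ c₁ c₂ hpow
    (Nat.pow_lt_pow_right (by norm_num) hi) φ hφ hA'
  have hH' : ∀ x, x ∈ ell K ↔ ψ x ∈ ell K := by
    intro x
    rw [← func_eq_zero v₁ w₁, hH, func_eq_zero v₂ w₂]
  let θ : ell K ≃+ ell K :=
    { toFun := fun x => ⟨κ⁻¹ • ψ x, (ell K).smul_mem _ ((hH' x).1 x.2)⟩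
      invFun := fun y => ⟨ψ.symm (κ • (y : Fin 3 → K)), (hH' _).2 (by
        rw [AddEquiv.apply_symm_apply]
        exact (ell K).smul_mem _ y.2)⟩
      left_inv := fun x => by
        apply Subtype.ext
        change ψ.symm (κ • (κ⁻¹ • ψ x)) = x
        rw [smul_smul, mul_inv_cancel₀ hκ, one_smul, AddEquiv.symm_apply_apply]
      right_inv := fun y => by
        apply Subtype.ext
        change κ⁻¹ • ψ (ψ.symm (κ • (y : Fin 3 → K))) = y
        rw [AddEquiv.apply_symm_apply, smul_smul, inv_mul_cancel₀ hκ, one_smul]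
      map_add' := fun x y => by
        apply Subtype.ext
        change κ⁻¹ • ψ ((x : Fin 3 → K) + y) = κ⁻¹ • ψ x + κ⁻¹ • ψ y
        rw [map_add, smul_add] }
  refine ⟨θ, ⟨σ, fun a x => ?_⟩, fun x => ?_⟩
  · apply Subtype.ext
    change κ⁻¹ • ψ (a • (x : Fin 3 → K)) = σ a • (κ⁻¹ • ψ x)
    rw [hσ, smul_comm]
  · exact hU x

end Pool.Agent.Results.MP_5fce70_co.ArcsDetermineClubs
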